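import Mathlib

set_option autoImplicit false

open Filter Topology

namespace Pool.Agent.Results.MP_b13893_an.RadiusBound

noncomputable section

/-! ### Negative continued fractions -/

/-- The complete quotients `x_0 = x`, `x_{j+1} = 1 / (c_j - x_j)` with `c_j = ⌊x_j⌋ + 1`
of the negative continued fraction expansion of a real number `x ≥ 1`. -/
def completeQuotient (x : ℝ) : ℕ → ℝ
  | 0 => x
  | j + 1 => 1 / ((⌊completeQuotient x j⌋₊ : ℝ) + 1 - completeQuotient x j)

/-- The digits `c_j = ⌊x_j⌋ + 1 ≥ 2` of the (infinite) negative continued fraction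
`x = [[c_0, c_1, …]]` of a real number `x ≥ 1`. -/
def digit (x : ℝ) (j : ℕ) : ℕ := ⌊completeQuotient x j⌋₊ + 1

/-! ### The `q`-deformation -/

/-- The indeterminate `q` of the field `ℚ((q))` of formal Laurent series. -/
def q : LaurentSeries ℚ := HahnSeries.single 1 1

/-- The `q`-integer `[n]_q = (1 - q^n) / (1 - q)`. -/
def qInt (n : ℕ) : LaurentSeries ℚ := (1 - q ^ n) / (1 - q)

/-- The `q`-deformed truncation: `qTrunc c N = [[c 0, c 1, …, c N]]_q`. -/
def qTrunc : (ℕ → ℕ) → ℕ → LaurentSeries ℚ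
  | c, 0 => qInt (c 0)
  | c, N + 1 => qInt (c 0) - q ^ (c 0 - 1) / qTrunc (fun j => c (j + 1)) N

/-- `q`-adic convergence `F N → G`: for every `K`, all coefficients below degree `K` of `F N`
and of `G` agree once `N` is large. -/
def IsQAdicLimit (F : ℕ → LaurentSeries ℚ) (G : LaurentSeries ℚ) : Prop :=
  ∀ K : ℤ, ∀ᶠ N in atTop, ∀ k : ℤ, k < K → (F N).coeff k = G.coeff k

open Classical in
/-- The `q`-adic limit of a sequence of Laurent series (`0` if there is none). -/
def qAdicLim (F : ℕ → LaurentSeries ℚ) : LaurentSeries ℚ :=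
  if h : ∃ G, IsQAdicLimit F G then h.choose else 0

/-- The shift `F ↦ q⁻¹ (F - 1)`, that is `[x]_q ↦ [x - 1]_q`. -/
def shift (F : LaurentSeries ℚ) : LaurentSeries ℚ := q⁻¹ * (F - 1)

/-- The `q`-deformed real number `[x]_q ∈ ℤ((q)) ⊆ ℚ((q))`. For `x ≥ 1` it is the `q`-adic limit of
the `q`-deformed truncations of the negative continued fraction of `x`; in general, with
`n = ⌈1 - x⌉₊` (the least natural number with `x + n ≥ 1`), it is obtained from `[x + n]_q` by
applying `n` times the rule `[y - 1]_q = q⁻¹ ([y]_q - 1)`. -/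
def qReal (x : ℝ) : LaurentSeries ℚ :=
  shift^[⌈1 - x⌉₊] (qAdicLim (qTrunc (digit (x + (⌈1 - x⌉₊ : ℕ)))))

/-- The radius of convergence in `[0, ∞]` of (the power series part of) a Laurent series. -/
def convRadius (F : LaurentSeries ℚ) : ENNReal :=
  (FormalMultilinearSeries.ofScalars ℂ (fun n : ℕ => ((F.coeff (n : ℤ) : ℚ) : ℂ))).radius

/-! ### Power series version of the truncations -/

open PowerSeries

/-- `1 + X + ... + X^(n-1)` as a power series. -/
def pInt (n : ℕ) : PowerSeries ℚ := ∑ i ∈ Finset.range n, (X : PowerSeries ℚ) ^ i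

/-- The truncations as power series. -/
def pTrunc : (ℕ → ℕ) → ℕ → PowerSeries ℚ
  | c, 0 => pInt (c 0)
  | c, N + 1 => pInt (c 0) - X ^ (c 0 - 1) * (pTrunc (fun j => c (j + 1)) N)⁻¹

lemma constCoeff_pInt {n : ℕ} (hn : 1 ≤ n) : constantCoeff (pInt n) = 1 := by
  obtain ⟨m, rfl⟩ : ∃ m, n = m + 1 := ⟨n - 1, by omega⟩
  simp [pInt, Finset.sum_range_succ']

lemma constCoeff_pTrunc (c : ℕ → ℕ) (hc : ∀ j, 2 ≤ c j) (N : ℕ) :
    constantCoeff (pTrunc c N) = 1 := by
  cases N with
  | zero => simpa [pTrunc] using constCoeff_pInt (by linarith [hc 0])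
  | succ N =>
    have h : c 0 - 1 ≠ 0 := by have := hc 0; omega
    simp [pTrunc, constCoeff_pInt (show 1 ≤ c 0 by linarith [hc 0]), h]

lemma q_ne_zero : q ≠ 0 := by
  simp [q]

lemma one_sub_q_ne_zero : (1 - q) ≠ 0 := by
  intro h
  have := congrArg (fun F : LaurentSeries ℚ => F.coeff 1) h
  simp [q, HahnSeries.coeff_one] at this

lemma coe_X' : ((X : PowerSeries ℚ) : LaurentSeries ℚ) = q := by
  simp [q]

lemma coe_pInt (n : ℕ) : ((pInt n : PowerSeries ℚ) : LaurentSeries ℚ) = qInt n := by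
  unfold qInt
  rw [eq_div_iff one_sub_q_ne_zero]
  have h : (pInt n) * (1 - X) = 1 - X ^ n := by
    unfold pInt
    exact geom_sum_mul_neg X n
  have h2 := congrArg (fun F : PowerSeries ℚ => (F : LaurentSeries ℚ)) h
  simp only [PowerSeries.coe_mul, PowerSeries.coe_sub, PowerSeries.coe_one,
    PowerSeries.coe_pow] at h2
  rw [coe_X'] at h2
  exact h2

lemma coe_inv' (F : PowerSeries ℚ) (hF : constantCoeff F ≠ 0) :
    ((F⁻¹ : PowerSeries ℚ) : LaurentSeries ℚ) = (F : LaurentSeries ℚ)⁻¹ := by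
  have h := PowerSeries.mul_inv_cancel F hF
  have h2 := congrArg (fun F : PowerSeries ℚ => (F : LaurentSeries ℚ)) h
  simp only [PowerSeries.coe_mul, PowerSeries.coe_one] at h2
  exact eq_inv_of_mul_eq_one_right h2

lemma coe_pTrunc (c : ℕ → ℕ) (hc : ∀ j, 2 ≤ c j) (N : ℕ) :
    ((pTrunc c N : PowerSeries ℚ) : LaurentSeries ℚ) = qTrunc c N := by
  induction N generalizing c with
  | zero => simp [pTrunc, qTrunc, coe_pInt]
  | succ N ih =>
    have hne : constantCoeff (pTrunc (fun j => c (j + 1)) N) ≠ 0 := by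
      rw [constCoeff_pTrunc _ (fun j => hc (j + 1))]; exact one_ne_zero
    simp only [pTrunc, qTrunc, PowerSeries.coe_sub, PowerSeries.coe_mul, coe_pInt,
      coe_inv' _ hne, ih (fun j => c (j + 1)) (fun j => hc (j + 1)), PowerSeries.coe_pow]
    rw [coe_X', div_eq_mul_inv]

/-- Stabilisation of the truncations. -/
lemma dvd_pTrunc_sub (c : ℕ → ℕ) (hc : ∀ j, 2 ≤ c j) (N : ℕ) :
    (X : PowerSeries ℚ) ^ (N + 1) ∣ pTrunc c (N + 1) - pTrunc c N := by
  induction N generalizing c with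
  | zero =>
    have e : pTrunc c (0 + 1) - pTrunc c 0
        = X ^ (c 0 - 1) * (-(pTrunc (fun j => c (j + 1)) 0)⁻¹) := by
      simp [pTrunc]
    rw [e]
    exact Dvd.dvd.mul_right (pow_dvd_pow _ (by have := hc 0; omega)) _
  | succ N ih =>
    set t : ℕ → ℕ := fun j => c (j + 1) with ht
    have htc : ∀ j, 2 ≤ t j := fun j => hc (j + 1)
    have h1 : pTrunc t (N + 1) * (pTrunc t (N + 1))⁻¹ = 1 :=
      PowerSeries.mul_inv_cancel _ (by rw [constCoeff_pTrunc t htc]; exact one_ne_zero)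
    have h0 : pTrunc t N * (pTrunc t N)⁻¹ = 1 :=
      PowerSeries.mul_inv_cancel _ (by rw [constCoeff_pTrunc t htc]; exact one_ne_zero)
    have e : pTrunc c (N + 1 + 1) - pTrunc c (N + 1)
        = X ^ (c 0 - 1) * ((pTrunc t (N + 1) - pTrunc t N) *
          ((pTrunc t (N + 1))⁻¹ * (pTrunc t N)⁻¹)) := by
      have e1 : pTrunc c (N + 1 + 1) = pInt (c 0) - X ^ (c 0 - 1) * (pTrunc t (N + 1))⁻¹ := rfl
      have e2 : pTrunc c (N + 1) = pInt (c 0) - X ^ (c 0 - 1) * (pTrunc t N)⁻¹ := rfl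
      rw [e1, e2]
      linear_combination (X ^ (c 0 - 1) * (pTrunc t (N + 1))⁻¹) * h0
        - (X ^ (c 0 - 1) * (pTrunc t N)⁻¹) * h1
    rw [e, show N + 1 + 1 = 1 + (N + 1) by ring, pow_add]
    exact mul_dvd_mul (pow_dvd_pow _ (by have := hc 0; omega)) (Dvd.dvd.mul_right (ih t htc) _)

lemma coeff_pTrunc_eq (c : ℕ → ℕ) (hc : ∀ j, 2 ≤ c j) (k N : ℕ) (hkN : k ≤ N) :
    coeff k (pTrunc c N) = coeff k (pTrunc c k) := by
  induction N, hkN using Nat.le_induction with
  | base => rfl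
  | succ N hN ih =>
    rw [← ih]
    have h := (PowerSeries.X_pow_dvd_iff.mp (dvd_pTrunc_sub c hc N)) k (by omega)
    rw [map_sub] at h
    linarith

/-- The limit power series. -/
def pLim (c : ℕ → ℕ) : PowerSeries ℚ := PowerSeries.mk fun k => coeff k (pTrunc c k)

lemma isQAdicLimit_pLim (c : ℕ → ℕ) (hc : ∀ j, 2 ≤ c j) :
    IsQAdicLimit (qTrunc c) (pLim c : LaurentSeries ℚ) := by
  intro K
  filter_upwards [eventually_ge_atTop K.toNat] with N hN k hk
  rw [← coe_pTrunc c hc N]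
  rcases lt_or_ge k 0 with hk0 | hk0
  · rw [PowerSeries.coeff_coe, PowerSeries.coeff_coe]
    simp [hk0]
  · obtain ⟨m, rfl⟩ := Int.eq_ofNat_of_zero_le hk0
    have hm : m ≤ N := by omega
    rw [LaurentSeries.coeff_coe_powerSeries, LaurentSeries.coeff_coe_powerSeries, pLim,
      PowerSeries.coeff_mk]
    exact coeff_pTrunc_eq c hc m N hm

lemma IsQAdicLimit.unique {F : ℕ → LaurentSeries ℚ} {G G' : LaurentSeries ℚ}
    (h : IsQAdicLimit F G) (h' : IsQAdicLimit F G') : G = G' := by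
  ext k
  obtain ⟨N, h1, h2⟩ := ((h (k + 1)).and (h' (k + 1))).exists
  rw [← h1 k (by omega), ← h2 k (by omega)]

lemma qAdicLim_eq {F : ℕ → LaurentSeries ℚ} {G : LaurentSeries ℚ} (h : IsQAdicLimit F G) :
    qAdicLim F = G := by
  have hex : ∃ G, IsQAdicLimit F G := ⟨G, h⟩
  rw [qAdicLim, dif_pos hex]
  exact hex.choose_spec.unique h

/-! ### The analytic side -/

/-- The value of the `q`-deformed truncation at a complex number `z`. -/
def fTrunc : (ℕ → ℕ) → ℕ → ℂ → ℂ
  | c, 0 => fun z => ∑ i ∈ Finset.range (c 0), z ^ i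
  | c, N + 1 => fun z => (∑ i ∈ Finset.range (c 0), z ^ i)
      - z ^ (c 0 - 1) * (fTrunc (fun j => c (j + 1)) N z)⁻¹

/-- `R_* = (3 - √5)/2`. -/
lemma key_ineq {t : ℝ} (_ht0 : 0 ≤ t) (ht : t < (3 - √5) / 2) :
    0 < 1 - 3 * t + t ^ 2 ∧ t < 1 / 2 := by
  have h5 : √5 ^ 2 = 5 := Real.sq_sqrt (by norm_num)
  have h5' : 2 < √5 := by
    rw [show (2 : ℝ) = √4 by rw [show (4 : ℝ) = 2 ^ 2 by norm_num]; simp]
    exact Real.sqrt_lt_sqrt (by norm_num) (by norm_num)
  constructor
  · nlinarith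
  · linarith

/-- geometric sums plus a remainder are bounded by `1/(1-t)`. -/
lemma norm_geom_add_le (z w : ℂ) (hz : ‖z‖ < 1) (hw : ‖w‖ ≤ 1 / (1 - ‖z‖)) (n : ℕ) :
    ‖(∑ i ∈ Finset.range n, z ^ i) + z ^ n * w‖ ≤ 1 / (1 - ‖z‖) := by
  have h1 : 0 < 1 - ‖z‖ := by linarith
  have h0 : 0 ≤ ‖z‖ := norm_nonneg z
  induction n with
  | zero => simpa using hw
  | succ n ih =>
    have e : (∑ i ∈ Finset.range (n + 1), z ^ i) + z ^ (n + 1) * w
        = 1 + z * ((∑ i ∈ Finset.range n, z ^ i) + z ^ n * w) := by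
      rw [Finset.sum_range_succ', mul_add, Finset.mul_sum]
      simp only [pow_succ', pow_zero]
      ring
    rw [e]
    calc ‖1 + z * ((∑ i ∈ Finset.range n, z ^ i) + z ^ n * w)‖
        ≤ ‖(1 : ℂ)‖ + ‖z * ((∑ i ∈ Finset.range n, z ^ i) + z ^ n * w)‖ := norm_add_le _ _
      _ = 1 + ‖z‖ * ‖(∑ i ∈ Finset.range n, z ^ i) + z ^ n * w‖ := by simp
      _ ≤ 1 + ‖z‖ * (1 / (1 - ‖z‖)) := by gcongr
      _ = 1 / (1 - ‖z‖) := by field_simp; ring

/-- The map `L : w ↦ z w / (1 + z w)` preserves the disc of radius `1 / (1 - |z|)`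
as soon as `1 - 3|z| + |z|² ≥ 0`. -/
lemma norm_L_le (z w : ℂ) (hz : ‖z‖ < (3 - √5) / 2) (hw : ‖w‖ ≤ 1 / (1 - ‖z‖)) :
    1 + z * w ≠ 0 ∧ ‖z * w * (1 + z * w)⁻¹‖ ≤ 1 / (1 - ‖z‖) := by
  have h0 : 0 ≤ ‖z‖ := norm_nonneg z
  obtain ⟨hk, hhalf⟩ := key_ineq h0 hz
  have h1 : 0 < 1 - ‖z‖ := by linarith
  have hzw : ‖z * w‖ ≤ ‖z‖ / (1 - ‖z‖) := by
    rw [norm_mul, div_eq_mul_one_div]
    exact mul_le_mul_of_nonneg_left hw h0
  have hlt : ‖z‖ / (1 - ‖z‖) < 1 := by rw [div_lt_one h1]; linarith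
  have hge : 1 - ‖z‖ / (1 - ‖z‖) ≤ ‖1 + z * w‖ := by
    have h2 : ‖(1 : ℂ)‖ ≤ ‖1 + z * w‖ + ‖z * w‖ := by
      calc ‖(1 : ℂ)‖ = ‖(1 + z * w) - z * w‖ := by ring_nf
        _ ≤ _ := norm_sub_le _ _
    rw [norm_one] at h2
    linarith
  have hpos : 0 < ‖1 + z * w‖ := by linarith
  refine ⟨norm_pos_iff.mp hpos, ?_⟩
  rw [norm_mul, norm_inv, ← div_eq_mul_inv, div_le_div_iff₀ hpos h1]
  have h3 : ‖z * w‖ * (1 - ‖z‖) ≤ ‖z‖ := by
    calc ‖z * w‖ * (1 - ‖z‖) ≤ ‖z‖ / (1 - ‖z‖) * (1 - ‖z‖) :=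
          mul_le_mul_of_nonneg_right hzw h1.le
      _ = ‖z‖ := by field_simp
  have h4 : ‖z‖ ≤ 1 - ‖z‖ / (1 - ‖z‖) := by
    rw [le_sub_iff_add_le, ← le_sub_iff_add_le', div_le_iff₀ h1]
    nlinarith
  linarith

/-- Invariance: every truncation is `1 + z w` with `|w| ≤ 1/(1-|z|)`. -/
lemma exists_fTrunc (c : ℕ → ℕ) (hc : ∀ j, 2 ≤ c j) (N : ℕ) (z : ℂ)
    (hz : ‖z‖ < (3 - √5) / 2) :
    ∃ w : ℂ, ‖w‖ ≤ 1 / (1 - ‖z‖) ∧ fTrunc c N z = 1 + z * w := by
  have h0 : 0 ≤ ‖z‖ := norm_nonneg z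
  obtain ⟨hk, hhalf⟩ := key_ineq h0 hz
  have h1 : 0 < 1 - ‖z‖ := by linarith
  induction N generalizing c with
  | zero =>
    obtain ⟨m, hm⟩ : ∃ m, c 0 = m + 1 := ⟨c 0 - 1, by have := hc 0; omega⟩
    refine ⟨∑ i ∈ Finset.range m, z ^ i, ?_, ?_⟩
    · have := norm_geom_add_le z 0 (by linarith) (by simp [h1.le]) m
      simpa using this
    · simp only [fTrunc, hm]
      rw [Finset.sum_range_succ', Finset.mul_sum]
      simp only [pow_succ', pow_zero]
      ring
  | succ N ih =>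
    obtain ⟨w, hw, hfw⟩ := ih (fun j => c (j + 1)) (fun j => hc (j + 1))
    obtain ⟨hne, hL⟩ := norm_L_le z w hz hw
    obtain ⟨m, hm⟩ : ∃ m, c 0 = m + 2 := ⟨c 0 - 2, by have := hc 0; omega⟩
    refine ⟨(∑ i ∈ Finset.range m, z ^ i) + z ^ m * (z * w * (1 + z * w)⁻¹), ?_, ?_⟩
    · exact norm_geom_add_le z _ (by linarith) hL m
    · simp only [fTrunc, hm, hfw, show m + 2 - 1 = m + 1 from rfl]
      rw [Finset.sum_range_succ, Finset.sum_range_succ', mul_add, Finset.mul_sum]
      simp only [pow_succ', pow_zero]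
      field_simp
      ring

lemma fTrunc_ne_zero (c : ℕ → ℕ) (hc : ∀ j, 2 ≤ c j) (N : ℕ) (z : ℂ)
    (hz : ‖z‖ < (3 - √5) / 2) : fTrunc c N z ≠ 0 := by
  obtain ⟨w, hw, hf⟩ := exists_fTrunc c hc N z hz
  rw [hf]
  exact (norm_L_le z w hz hw).1

lemma norm_fTrunc_le (c : ℕ → ℕ) (hc : ∀ j, 2 ≤ c j) (N : ℕ) (z : ℂ)
    (hz : ‖z‖ < (3 - √5) / 2) : ‖fTrunc c N z‖ ≤ 1 / (1 - ‖z‖) := by
  obtain ⟨w, hw, hf⟩ := exists_fTrunc c hc N z hz
  have h0 : 0 ≤ ‖z‖ := norm_nonneg z
  obtain ⟨hk, hhalf⟩ := key_ineq h0 hz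
  have := norm_geom_add_le z w (by linarith) hw 1
  rw [hf]
  simpa using this

lemma differentiableAt_fTrunc (c : ℕ → ℕ) (hc : ∀ j, 2 ≤ c j) (N : ℕ) (z : ℂ)
    (hz : ‖z‖ < (3 - √5) / 2) : DifferentiableAt ℂ (fTrunc c N) z := by
  induction N generalizing c with
  | zero =>
    show DifferentiableAt ℂ (fun z => ∑ i ∈ Finset.range (c 0), z ^ i) z
    fun_prop
  | succ N ih =>
    have h1 := ih (fun j => c (j + 1)) (fun j => hc (j + 1))
    have h2 := fTrunc_ne_zero (fun j => c (j + 1)) (fun j => hc (j + 1)) N z hz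
    show DifferentiableAt ℂ (fun z => (∑ i ∈ Finset.range (c 0), z ^ i)
      - z ^ (c 0 - 1) * (fTrunc (fun j => c (j + 1)) N z)⁻¹) z
    have h3 : DifferentiableAt ℂ (fun z => (fTrunc (fun j => c (j + 1)) N z)⁻¹) z := h1.inv h2
    fun_prop

lemma Rstar_pos : 0 < (3 - √5) / 2 := by
  have h5' : √5 < 3 := by
    rw [show (3 : ℝ) = √9 by rw [show (9 : ℝ) = 3 ^ 2 by norm_num]; simp]
    exact Real.sqrt_lt_sqrt (by norm_num) (by norm_num)
  linarith

lemma analyticAt_fTrunc (c : ℕ → ℕ) (hc : ∀ j, 2 ≤ c j) (N : ℕ) :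
    AnalyticAt ℂ (fTrunc c N) 0 := by
  have h : DifferentiableOn ℂ (fTrunc c N) (Metric.ball 0 ((3 - √5) / 2)) := by
    intro z hz
    exact (differentiableAt_fTrunc c hc N z (by simpa using hz)).differentiableWithinAt
  exact h.analyticAt (Metric.ball_mem_nhds _ Rstar_pos)

/-- The Taylor series at `0`. -/
def taylor (f : ℂ → ℂ) : PowerSeries ℂ :=
  PowerSeries.mk fun n => iteratedDeriv n f 0 / (n.factorial : ℂ)

lemma taylor_mul {f g : ℂ → ℂ} (hf : AnalyticAt ℂ f 0) (hg : AnalyticAt ℂ g 0) :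
    taylor (f * g) = taylor f * taylor g := by
  ext n
  simp only [taylor, PowerSeries.coeff_mk, PowerSeries.coeff_mul,
    iteratedDeriv_mul hf.contDiffAt hg.contDiffAt,
    Finset.Nat.sum_antidiagonal_eq_sum_range_succ_mk, Nat.succ_eq_add_one, Finset.sum_div]
  refine Finset.sum_congr rfl fun i hi => ?_
  rw [Nat.cast_choose _ (by grind)]
  have := Nat.factorial_ne_zero n
  have := Nat.factorial_ne_zero i
  have := Nat.factorial_ne_zero (n - i)
  field_simp

lemma taylor_sub {f g : ℂ → ℂ} (hf : AnalyticAt ℂ f 0) (hg : AnalyticAt ℂ g 0) :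
    taylor (f - g) = taylor f - taylor g := by
  ext n
  simp [taylor, iteratedDeriv_sub hf.contDiffAt hg.contDiffAt, sub_div]

lemma taylor_add {f g : ℂ → ℂ} (hf : AnalyticAt ℂ f 0) (hg : AnalyticAt ℂ g 0) :
    taylor (f + g) = taylor f + taylor g := by
  ext n
  simp [taylor, iteratedDeriv_add hf.contDiffAt hg.contDiffAt, add_div]

lemma taylor_congr {f g : ℂ → ℂ} (h : f =ᶠ[𝓝 0] g) : taylor f = taylor g := by
  ext n
  simp [taylor, h.iteratedDeriv_eq n]

lemma taylor_const (a : ℂ) : taylor (fun _ => a) = PowerSeries.C a := by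
  ext n
  simp only [taylor, PowerSeries.coeff_mk, PowerSeries.coeff_C, iteratedDeriv_const]
  split_ifs with h <;> simp [h]

lemma taylor_id : taylor (fun z => z) = PowerSeries.X := by
  ext n
  simp only [taylor, PowerSeries.coeff_mk, PowerSeries.coeff_X, iteratedDeriv_fun_id_zero]
  rcases n with _ | _ | n <;> simp

lemma taylor_pow (i : ℕ) : taylor (fun z => z ^ i) = PowerSeries.X ^ i := by
  induction i with
  | zero => simpa using taylor_const 1
  | succ i ih =>
    have : (fun z : ℂ => z ^ (i + 1)) = (fun z => z ^ i) * (fun z => z) := by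
      ext z; simp [pow_succ]
    rw [this, taylor_mul (by fun_prop) (by fun_prop), ih, taylor_id, pow_succ]

lemma taylor_geom (n : ℕ) :
    taylor (fun z => ∑ i ∈ Finset.range n, z ^ i) = ∑ i ∈ Finset.range n, PowerSeries.X ^ i := by
  induction n with
  | zero => simpa using taylor_const 0
  | succ n ih =>
    have : (fun z : ℂ => ∑ i ∈ Finset.range (n + 1), z ^ i)
        = (fun z => ∑ i ∈ Finset.range n, z ^ i) + (fun z => z ^ n) := by
      ext z; simp [Finset.sum_range_succ]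
    rw [this, taylor_add (by fun_prop) (by fun_prop), ih, taylor_pow, Finset.sum_range_succ]

/-- The Taylor series of the truncation functions are the formal truncations. -/
lemma taylor_fTrunc (c : ℕ → ℕ) (hc : ∀ j, 2 ≤ c j) (N : ℕ) :
    taylor (fTrunc c N) = PowerSeries.map (algebraMap ℚ ℂ) (pTrunc c N) := by
  induction N generalizing c with
  | zero =>
    show taylor (fun z => ∑ i ∈ Finset.range (c 0), z ^ i) = _
    rw [taylor_geom]
    simp [pTrunc, pInt]
  | succ N ih =>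
    set t : ℕ → ℕ := fun j => c (j + 1) with ht
    have htc : ∀ j, 2 ≤ t j := fun j => hc (j + 1)
    have hA := analyticAt_fTrunc t htc N
    have hne : fTrunc t N 0 ≠ 0 := fTrunc_ne_zero t htc N 0 (by simpa using Rstar_pos)
    have hAi : AnalyticAt ℂ (fun z => (fTrunc t N z)⁻¹) 0 := hA.inv hne
    have hmul : taylor (fTrunc t N) * taylor (fun z => (fTrunc t N z)⁻¹) = 1 := by
      rw [← taylor_mul hA hAi]
      have hev : (fTrunc t N * fun z => (fTrunc t N z)⁻¹) =ᶠ[𝓝 0] fun _ => (1 : ℂ) := by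
        filter_upwards [hA.continuousAt.eventually_ne hne] with z hz
        simp [hz]
      rw [taylor_congr hev, taylor_const, map_one]
    have hpm : PowerSeries.map (algebraMap ℚ ℂ) (pTrunc t N) *
        PowerSeries.map (algebraMap ℚ ℂ) (pTrunc t N)⁻¹ = 1 := by
      rw [← map_mul, PowerSeries.mul_inv_cancel _
        (by rw [constCoeff_pTrunc t htc]; exact one_ne_zero), map_one]
    have hinv : taylor (fun z => (fTrunc t N z)⁻¹)
        = PowerSeries.map (algebraMap ℚ ℂ) (pTrunc t N)⁻¹ := by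
      rw [ih t htc] at hmul
      have := congrArg (fun F => PowerSeries.map (algebraMap ℚ ℂ) (pTrunc t N)⁻¹ * F) hmul
      simp only [mul_one] at this
      rw [← mul_assoc, mul_comm (PowerSeries.map (algebraMap ℚ ℂ) (pTrunc t N)⁻¹), hpm,
        one_mul] at this
      exact this
    have hfun : fTrunc c (N + 1) = (fun z => ∑ i ∈ Finset.range (c 0), z ^ i)
        - (fun z => z ^ (c 0 - 1)) * (fun z => (fTrunc t N z)⁻¹) := by
      ext z; rfl
    have hA1 : AnalyticAt ℂ (fun z : ℂ => z ^ (c 0 - 1)) 0 := by fun_prop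
    rw [hfun, taylor_sub (by fun_prop) (hA1.mul hAi), taylor_mul hA1 hAi, taylor_pow,
      taylor_geom, hinv]
    have e1 : pTrunc c (N + 1) = pInt (c 0) - X ^ (c 0 - 1) * (pTrunc t N)⁻¹ := rfl
    rw [e1]
    simp [pInt]

/-- Cauchy estimate for the coefficients of the truncations. -/
lemma norm_coeff_pTrunc_le (c : ℕ → ℕ) (hc : ∀ j, 2 ≤ c j) (N k : ℕ) {r : ℝ} (hr0 : 0 < r)
    (hr : r < (3 - √5) / 2) :
    ‖((coeff k (pTrunc c N) : ℚ) : ℂ)‖ ≤ (1 / (1 - r)) / r ^ k := by
  have h1 : ((coeff k (pTrunc c N) : ℚ) : ℂ) = iteratedDeriv k (fTrunc c N) 0 / k.factorial := by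
    have := congrArg (coeff k) (taylor_fTrunc c hc N)
    simp only [taylor, PowerSeries.coeff_mk, PowerSeries.coeff_map] at this
    rw [this]; rfl
  have hd : DiffContOnCl ℂ (fTrunc c N) (Metric.ball 0 r) := by
    apply DifferentiableOn.diffContOnCl
    intro z hz
    have hz' : ‖z‖ ≤ r := by
      have := Metric.closure_ball_subset_closedBall hz
      simpa using this
    exact (differentiableAt_fTrunc c hc N z (by linarith)).differentiableWithinAt
  have hC : ∀ z ∈ Metric.sphere (0 : ℂ) r, ‖fTrunc c N z‖ ≤ 1 / (1 - r) := by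
    intro z hz
    have hz' : ‖z‖ = r := by simpa using hz
    have := norm_fTrunc_le c hc N z (by linarith)
    rwa [hz'] at this
  have h2 := Complex.norm_iteratedDeriv_le_of_forall_mem_sphere_norm_le k hr0 hd hC
  rw [h1, norm_div, Complex.norm_natCast, div_le_iff₀ (by positivity)]
  calc ‖iteratedDeriv k (fTrunc c N) 0‖ ≤ k.factorial * (1 / (1 - r)) / r ^ k := h2
    _ = (1 / (1 - r)) / r ^ k * k.factorial := by ring

lemma norm_coeff_pLim_le (c : ℕ → ℕ) (hc : ∀ j, 2 ≤ c j) (k : ℕ) {r : ℝ} (hr0 : 0 < r)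
    (hr : r < (3 - √5) / 2) :
    ‖((coeff k (pLim c) : ℚ) : ℂ)‖ ≤ (1 / (1 - r)) / r ^ k := by
  rw [pLim, PowerSeries.coeff_mk]
  exact norm_coeff_pTrunc_le c hc k k hr0 hr

/-! ### Digits -/

lemma one_le_completeQuotient {x : ℝ} (hx : 1 ≤ x) (j : ℕ) : 1 ≤ completeQuotient x j := by
  induction j with
  | zero => simpa [completeQuotient] using hx
  | succ j ih =>
    have h1 := Nat.lt_floor_add_one (completeQuotient x j)
    have h2 := Nat.floor_le (show 0 ≤ completeQuotient x j by linarith)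
    show 1 ≤ 1 / ((⌊completeQuotient x j⌋₊ : ℝ) + 1 - completeQuotient x j)
    rw [le_div_iff₀ (by linarith)]
    linarith

lemma two_le_digit {x : ℝ} (hx : 1 ≤ x) (j : ℕ) : 2 ≤ digit x j := by
  have h1 := one_le_completeQuotient hx j
  have : 1 ≤ ⌊completeQuotient x j⌋₊ := by
    rw [Nat.one_le_floor_iff]
    exact h1
  unfold digit
  omega

/-! ### The shift -/

lemma coeff_q_inv_mul (F : LaurentSeries ℚ) (k : ℤ) : (q⁻¹ * F).coeff k = F.coeff (k + 1) := by
  have h : F = q * (q⁻¹ * F) := by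
    rw [← mul_assoc, mul_inv_cancel₀ q_ne_zero, one_mul]
  conv_rhs => rw [h]
  rw [q, HahnSeries.coeff_single_mul_add]
  simp

lemma coeff_shift (F : LaurentSeries ℚ) {k : ℤ} (hk : 0 ≤ k) :
    (shift F).coeff k = F.coeff (k + 1) := by
  rw [shift, coeff_q_inv_mul]
  have : (1 : LaurentSeries ℚ).coeff (k + 1) = 0 := by
    rw [HahnSeries.coeff_one, if_neg (by omega)]
  rw [HahnSeries.coeff_sub, this, sub_zero]

lemma coeff_shift_iterate (F : LaurentSeries ℚ) (n : ℕ) {k : ℤ} (hk : 0 ≤ k) :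
    (shift^[n] F).coeff k = F.coeff (k + n) := by
  induction n generalizing k with
  | zero => simp
  | succ n ih =>
    rw [Function.iterate_succ_apply', coeff_shift _ hk, ih (by omega)]
    congr 1
    push_cast
    ring

lemma one_le_add_ceil (x : ℝ) : 1 ≤ x + (⌈1 - x⌉₊ : ℕ) := by
  have := Nat.le_ceil (1 - x)
  linarith


/-! ### Sanity checks: the definitions above are the ones of the problem

* `realTrunc_sub_mem`, `tendsto_realTrunc`: the digits are those of `x` (the classical truncations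
  `[[c_0, …, c_N]]` decrease to `x`);
* `isQAdicLimit_qReal`: for `x ≥ 1`, `[x]_q` is the `q`-adic limit of the `q`-truncations;
* `qReal_sub_one`: `[x - 1]_q = q⁻¹ ([x]_q - 1)` for every real `x`;
* `qReal_natCast`: `[n]_q = (1 - q^n)/(1 - q)`. -/

/-- The classical truncation `[[c 0, …, c N]]`. -/
def realTrunc : (ℕ → ℕ) → ℕ → ℝ
  | c, 0 => c 0
  | c, N + 1 => c 0 - 1 / realTrunc (fun j => c (j + 1)) N

lemma completeQuotient_tail (x : ℝ) (j : ℕ) :
    completeQuotient (completeQuotient x 1) j = completeQuotient x (j + 1) := by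
  induction j with
  | zero => rfl
  | succ j ih =>
    show 1 / ((⌊completeQuotient (completeQuotient x 1) j⌋₊ : ℝ) + 1
      - completeQuotient (completeQuotient x 1) j) = _
    rw [ih]; rfl

lemma digit_tail (x : ℝ) : (fun j => digit x (j + 1)) = digit (completeQuotient x 1) := by
  ext j
  simp only [digit, completeQuotient_tail]

/-- The classical truncations satisfy `x ≤ [[c_0, …, c_N]] ≤ x + 1/(N+1)`. -/
lemma realTrunc_sub_mem {x : ℝ} (hx : 1 ≤ x) (N : ℕ) :
    x ≤ realTrunc (digit x) N ∧ realTrunc (digit x) N ≤ x + 1 / (N + 1) := by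
  induction N generalizing x with
  | zero =>
    have h1 := Nat.lt_floor_add_one x
    have h2 := Nat.floor_le (show 0 ≤ x by linarith)
    simp only [realTrunc, digit, completeQuotient]
    push_cast
    constructor <;> norm_num <;> linarith
  | succ N ih =>
    have hx1 : 1 ≤ completeQuotient x 1 := one_le_completeQuotient hx 1
    obtain ⟨l, u⟩ := ih hx1
    have h1 := Nat.lt_floor_add_one x
    have e : x = (digit x 0 : ℝ) - 1 / completeQuotient x 1 := by
      simp only [completeQuotient, digit]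
      push_cast
      have : (⌊x⌋₊ : ℝ) + 1 - x ≠ 0 := by linarith
      field_simp
      ring
    have er : realTrunc (digit x) (N + 1)
        = (digit x 0 : ℝ) - 1 / realTrunc (digit (completeQuotient x 1)) N := by
      rw [← digit_tail]; rfl
    rw [er]
    set a := realTrunc (digit (completeQuotient x 1)) N
    set y := completeQuotient x 1
    have ha : 0 < a := by linarith
    have hy : 0 < y := by linarith
    have hN : (0 : ℝ) < (N : ℝ) + 1 := by positivity
    have hd : 1 / a ≤ 1 / y := by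
      apply one_div_le_one_div_of_le hy l
    have hu : a - y ≤ 1 / ((N : ℝ) + 1) := by linarith
    have hd2 : 1 / y - 1 / a ≤ 1 / ((N : ℝ) + 1 + 1) := by
      have e3 : 1 / y - 1 / a = (a - y) / (y * a) := by field_simp
      rw [e3, div_le_div_iff₀ (by positivity) (by positivity)]
      have h5 : (a - y) * (N + 1) ≤ 1 := by
        rw [le_div_iff₀ hN] at hu
        exact hu
      nlinarith [mul_nonneg (sub_nonneg.mpr l) (sub_nonneg.mpr hx1), mul_nonneg hy.le hy.le]
    push_cast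
    constructor
    · linarith
    · linarith

/-- The digits are those of `x`: the classical truncations converge to `x`. -/
lemma tendsto_realTrunc {x : ℝ} (hx : 1 ≤ x) :
    Tendsto (realTrunc (digit x)) atTop (𝓝 x) := by
  have h : Tendsto (fun N : ℕ => x + 1 / ((N : ℝ) + 1)) atTop (𝓝 (x + 0)) :=
    tendsto_const_nhds.add tendsto_one_div_add_atTop_nhds_zero_nat
  rw [add_zero] at h
  exact tendsto_of_tendsto_of_tendsto_of_le_of_le tendsto_const_nhds h
    (fun N => (realTrunc_sub_mem hx N).1) (fun N => (realTrunc_sub_mem hx N).2)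

lemma qReal_of_one_le {x : ℝ} (hx : 1 ≤ x) : qReal x = (pLim (digit x) : LaurentSeries ℚ) := by
  have h : ⌈1 - x⌉₊ = 0 := by rw [Nat.ceil_eq_zero]; linarith
  have h2 : qReal x = qAdicLim (qTrunc (digit x)) := by
    simp [qReal, h]
  rw [h2]
  exact qAdicLim_eq (isQAdicLimit_pLim _ (two_le_digit hx))

/-- For `x ≥ 1`, the `q`-real `[x]_q` is the `q`-adic limit of the `q`-truncations. -/
lemma isQAdicLimit_qReal {x : ℝ} (hx : 1 ≤ x) : IsQAdicLimit (qTrunc (digit x)) (qReal x) := by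
  rw [qReal_of_one_le hx]
  exact isQAdicLimit_pLim _ (two_le_digit hx)

lemma digit_add_one_zero {x : ℝ} (hx : 1 ≤ x) : digit (x + 1) 0 = digit x 0 + 1 := by
  simp only [digit, completeQuotient]
  rw [Nat.floor_add_one (by linarith)]

lemma completeQuotient_add_one {x : ℝ} (hx : 1 ≤ x) :
    completeQuotient (x + 1) 1 = completeQuotient x 1 := by
  simp only [completeQuotient]
  rw [Nat.floor_add_one (by linarith)]
  push_cast
  congr 1
  ring

lemma qInt_succ (n : ℕ) : qInt (n + 1) = 1 + q * qInt n := by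
  have h := one_sub_q_ne_zero
  unfold qInt
  field_simp
  ring

lemma qTrunc_add_one {x : ℝ} (hx : 1 ≤ x) (N : ℕ) :
    qTrunc (digit (x + 1)) N = 1 + q * qTrunc (digit x) N := by
  cases N with
  | zero => simp only [qTrunc, digit_add_one_zero hx, qInt_succ]
  | succ N =>
    have h1 : (fun j => digit (x + 1) (j + 1)) = fun j => digit x (j + 1) := by
      rw [digit_tail, digit_tail, completeQuotient_add_one hx]
    simp only [qTrunc, digit_add_one_zero hx, qInt_succ, h1]
    obtain ⟨m, hm⟩ : ∃ m, digit x 0 = m + 1 :=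
      ⟨digit x 0 - 1, by have := two_le_digit hx 0; omega⟩
    rw [hm]
    simp only [Nat.add_sub_cancel]
    rw [pow_succ]
    ring

/-- The recursion rule `[x - 1]_q = q⁻¹ ([x]_q - 1)` for every real `x`. -/
lemma qReal_sub_one (x : ℝ) : qReal (x - 1) = q⁻¹ * (qReal x - 1) := by
  rcases lt_or_ge x 2 with hx | hx
  · have hc : ⌈1 - (x - 1)⌉₊ = ⌈1 - x⌉₊ + 1 := by
      rw [show 1 - (x - 1) = (1 - x) + 1 by ring]
      rcases le_or_gt 0 (1 - x) with h0 | h0
      · exact Nat.ceil_add_one h0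
      · have h3 : ⌈1 - x⌉₊ = 0 := by rw [Nat.ceil_eq_zero]; linarith
        rw [h3, Nat.ceil_eq_iff (by norm_num)]
        constructor
        · norm_num; linarith
        · norm_num; linarith
    rw [qReal, hc, Function.iterate_succ_apply']
    show shift _ = shift _
    congr 1
    rw [qReal]
    congr 4
    push_cast
    ring
  · have h1 : 1 ≤ x - 1 := by linarith
    have h2 : IsQAdicLimit (qTrunc (digit x)) (1 + q * qReal (x - 1)) := by
      have h3 := isQAdicLimit_qReal h1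
      intro K
      filter_upwards [h3 K] with N hN k hk
      have e : qTrunc (digit x) N = 1 + q * qTrunc (digit (x - 1)) N := by
        have := qTrunc_add_one h1 N
        rwa [sub_add_cancel] at this
      rw [e, HahnSeries.coeff_add, HahnSeries.coeff_add]
      congr 1
      have e2 : ∀ F : LaurentSeries ℚ, (q * F).coeff k = F.coeff (k - 1) := by
        intro F
        rw [q, show k = (k - 1) + 1 by ring, HahnSeries.coeff_single_mul_add]
        simp
      rw [e2, e2]
      exact hN (k - 1) (by omega)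
    have h4 : qReal x = 1 + q * qReal (x - 1) :=
      (isQAdicLimit_qReal (by linarith)).unique h2
    rw [h4, add_sub_cancel_left, ← mul_assoc, inv_mul_cancel₀ q_ne_zero, one_mul]

/-- `[1]_q = 1`, as it should be: the expansion is `[[2, 2, 2, …]]`. -/
lemma qReal_one : qReal 1 = 1 := by
  have hcq : ∀ j, completeQuotient 1 j = 1 := by
    intro j
    induction j with
    | zero => rfl
    | succ j ih => simp [completeQuotient, ih]
  have hdig : digit 1 = fun _ => 2 := by
    ext j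
    simp [digit, hcq]
  have hmul : ∀ N : ℕ, pTrunc (fun _ => 2) N * pInt (N + 1) = pInt (N + 2) := by
    intro N
    induction N with
    | zero => simp [pTrunc, pInt]
    | succ N ih =>
      have e1 : pTrunc (fun _ => 2) (N + 1)
          = pInt 2 - X ^ (2 - 1) * (pTrunc (fun _ => 2) N)⁻¹ := rfl
      have h1 : pTrunc (fun _ => 2) N * (pTrunc (fun _ => 2) N)⁻¹ = 1 :=
        PowerSeries.mul_inv_cancel _ (by rw [constCoeff_pTrunc _ (fun _ => le_refl 2)]; simp)
      have h2 : (pTrunc (fun _ => 2) N)⁻¹ * pInt (N + 2) = pInt (N + 1) := by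
        rw [← ih]
        linear_combination (pInt (N + 1)) * h1
      have h3 : pInt (N + 1 + 2) = pInt 2 * pInt (N + 2) - X * pInt (N + 1) := by
        have g : ∀ n, pInt n * (1 - X) = 1 - X ^ n := fun n => geom_sum_mul_neg X n
        have hX : (1 - X : PowerSeries ℚ) ≠ 0 := by
          intro h
          have := congrArg (constantCoeff (R := ℚ)) h
          simp at this
        apply mul_right_cancel₀ (mul_ne_zero hX hX)
        linear_combination (1 - X) * g (N + 1 + 2) - (1 - X) * pInt 2 * g (N + 2)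
          - (1 - X ^ (N + 2)) * g 2 + X * (1 - X) * g (N + 1)
      rw [e1, h3]
      linear_combination (-X) * h2
  have hlim : pLim (fun _ => 2) = 1 := by
    ext k
    rw [pLim, PowerSeries.coeff_mk]
    have hdvd : (X : PowerSeries ℚ) ^ (k + 1) ∣ pTrunc (fun _ => 2) k - 1 := by
      have h4 : (pTrunc (fun _ => 2) k - 1) * pInt (k + 1) = X ^ (k + 1) := by
        rw [sub_mul, hmul, one_mul, pInt, pInt, Finset.sum_range_succ _ (k + 1)]
        ring
      have h5 : pInt (k + 1) * (pInt (k + 1))⁻¹ = 1 :=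
        PowerSeries.mul_inv_cancel _ (by rw [constCoeff_pInt (by omega)]; simp)
      exact ⟨(pInt (k + 1))⁻¹, by rw [← h4, mul_assoc, h5, mul_one]⟩
    have h6 := (PowerSeries.X_pow_dvd_iff.mp hdvd) k (by omega)
    rw [map_sub] at h6
    linarith
  rw [qReal_of_one_le le_rfl, hdig, hlim]
  simp

/-- **Main theorem.** The radius of convergence of the `q`-deformed real number `[x]_q` is at
least `R_* = (3 - √5)/2`, for every real number `x`. -/
theorem result (x : ℝ) : ENNReal.ofReal ((3 - √5) / 2) ≤ convRadius (qReal x) := by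
  set n := ⌈1 - x⌉₊ with hn
  set y : ℝ := x + (n : ℕ) with hy
  have hy1 : 1 ≤ y := one_le_add_ceil x
  have hc : ∀ j, 2 ≤ digit y j := two_le_digit hy1
  have hlim : qAdicLim (qTrunc (digit y)) = (pLim (digit y) : LaurentSeries ℚ) :=
    qAdicLim_eq (isQAdicLimit_pLim _ hc)
  have hq : qReal x = shift^[n] (pLim (digit y) : LaurentSeries ℚ) := by
    rw [← hlim]; rfl
  have hcoef : ∀ k : ℕ, (qReal x).coeff (k : ℤ) = coeff (k + n) (pLim (digit y)) := by
    intro k
    rw [hq, coeff_shift_iterate _ _ (by omega)]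
    rw [show (k : ℤ) + (n : ℤ) = ((k + n : ℕ) : ℤ) by push_cast; ring,
      LaurentSeries.coeff_coe_powerSeries]
  apply ENNReal.le_of_forall_nnreal_lt
  intro r hr
  rcases eq_or_ne r 0 with rfl | hr0
  · simp
  have hr0' : (0 : ℝ) < r := by positivity
  have hr' : (r : ℝ) < (3 - √5) / 2 := by
    rw [← ENNReal.ofReal_coe_nnreal] at hr
    exact (ENNReal.ofReal_lt_ofReal_iff Rstar_pos).mp hr
  refine FormalMultilinearSeries.le_radius_of_bound _ ((1 / (1 - (r : ℝ))) / (r : ℝ) ^ n) ?_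
  intro k
  rw [FormalMultilinearSeries.ofScalars_norm, hcoef k]
  have h := norm_coeff_pLim_le (digit y) hc (k + n) hr0' hr'
  calc ‖((coeff (k + n) (pLim (digit y)) : ℚ) : ℂ)‖ * (r : ℝ) ^ k
      ≤ ((1 / (1 - (r : ℝ))) / (r : ℝ) ^ (k + n)) * (r : ℝ) ^ k := by gcongr
    _ = (1 / (1 - (r : ℝ))) / (r : ℝ) ^ n := by
      rw [pow_add]; field_simp

end

end Pool.Agent.Results.MP_b13893_an.RadiusBound
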